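import Pool.Agent.H44.FPP4

open Set MeasureTheory Pool.Agent.H44.FPP

theorem Pool.Agent.Results.MP_79314c_pr.Q1False.result :
    ∃ F : Measure ℝ, IsProbabilityMeasure F ∧ F (Iio 0) = 0 ∧ ∀ N : ℕ, ∃ n ≥ N, ∃ t : ℝ,
      (Measure.infinitePi fun _ : Sym2 (Fin 2 → ℤ) => F) {τ | t < a0 τ (n + 1)} <
        (Measure.infinitePi fun _ : Sym2 (Fin 2 → ℤ) => F) {τ | t < a0 τ n} :=
  ⟨FF, inferInstance, fpp_main⟩
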